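import Mathlib

/-!
# MP_4c536a_lc: linear bounded automata, pictures and their frontiers

The definitions that occur in the final statements.
-/

set_option autoImplicit false

namespace Pool.Agent.Lib.MP_4c536a_lc.BGD

/-! ## 1. Linear bounded automata -/

/-- Movements of the head. -/
inductive Dir
  | L
  | R
  | S

/-- New position of the head. -/
def Dir.mv : Dir → ℕ → ℕ
  | .L, p => p - 1
  | .R, p => p + 1
  | .S, p => p

/-- A nondeterministic linear bounded automaton with input alphabet `A`: `onCell q a q' a' d` is a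
transition on a cell, `onEnd q s q'` a transition on an end marker (`s = false`: the left one, the
head moves to the first cell; `s = true`: the right one, the head moves to the last cell). -/
structure LBA (A : Type) where
  Q : Type
  T : Type
  finQ : Finite Q
  finT : Finite T
  inp : A → T
  start : Q
  acc : Set Q
  onCell : Q → T → Q → T → Dir → Prop
  onEnd : Q → Bool → Q → Prop

/-- A configuration: state, position of the head (`0` and `n + 1` are the end markers), contents of
the cells `1, …, n`. -/
abbrev LBA.Cfg {A : Type} (M : LBA A) : Type := M.Q × ℕ × (ℕ → M.T)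

/-- One step of the automaton on a tape with `n` cells. -/
inductive LBA.Step {A : Type} (M : LBA A) (n : ℕ) : M.Cfg → M.Cfg → Prop
  | cell (q q' : M.Q) (p : ℕ) (tp : ℕ → M.T) (a' : M.T) (d : Dir) : 1 ≤ p → p ≤ n →
      M.onCell q (tp p) q' a' d → LBA.Step M n (q, p, tp) (q', d.mv p, Function.update tp p a')
  | left (q q' : M.Q) (tp : ℕ → M.T) : M.onEnd q false q' → LBA.Step M n (q, 0, tp) (q', 1, tp)
  | right (q q' : M.Q) (tp : ℕ → M.T) : M.onEnd q true q' →
      LBA.Step M n (q, n + 1, tp) (q', n, tp)

/-- The automaton accepts the word `w`: started in the state `start` on the first cell it can reach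
an accepting state. -/
def LBA.Accepts {A : Type} (M : LBA A) (w : List A) : Prop :=
  ∃ (q : M.Q) (p : ℕ) (tp tp₀ : ℕ → M.T), q ∈ M.acc ∧
    (∀ i (h : i < w.length), tp₀ (i + 1) = M.inp (w.get ⟨i, h⟩)) ∧
    Relation.ReflTransGen (M.Step w.length) (M.start, 1, tp₀) (q, p, tp)

/-- Context-sensitive: accepted by a linear bounded automaton (nonempty words). -/
def IsCS {A : Type} (L : Set (List A)) : Prop :=
  ∃ M : LBA A, ∀ w : List A, w ≠ [] → (w ∈ L ↔ M.Accepts w)

/-- The automaton is deterministic. -/
def LBA.Det {A : Type} (M : LBA A) : Prop :=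
  (∀ q a q₁ a₁ d₁ q₂ a₂ d₂, M.onCell q a q₁ a₁ d₁ → M.onCell q a q₂ a₂ d₂ →
    q₁ = q₂ ∧ a₁ = a₂ ∧ d₁ = d₂) ∧
  ∀ q s q₁ q₂, M.onEnd q s q₁ → M.onEnd q s q₂ → q₁ = q₂

/-- Deterministic context-sensitive: accepted by a deterministic linear bounded automaton (nonempty
words). -/
def IsDCS {A : Type} (L : Set (List A)) : Prop :=
  ∃ M : LBA A, M.Det ∧ ∀ w : List A, w ≠ [] → (w ∈ L ↔ M.Accepts w)

/-! ## 2. Pictures -/

/-- A picture of size `m × n`: `p i j` is the symbol in row `i` (from the top), column `j` (from the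
left). -/
abbrev Pic (Γ : Type) (m n : ℕ) : Type := Fin m → Fin n → Γ

/-- The bordered version, rows `0, …, m + 1`, columns `0, …, n + 1`; `none` is the symbol `#`. -/
def bord {Γ : Type} {m n : ℕ} (p : Pic Γ m n) (i j : ℕ) : Option Γ :=
  if h : (1 ≤ i ∧ i ≤ m) ∧ 1 ≤ j ∧ j ≤ n then
    some (p ⟨i - 1, by omega⟩ ⟨j - 1, by omega⟩) else none

/-- A `2 × 2` array: `t r s`, row `r` (`false` = upper), column `s` (`false` = left). -/
abbrev Tile (Γ : Type) : Type := Bool → Bool → Option Γ

/-- The picture belongs to the local picture language of `Θ`. -/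
def InLocal {Γ : Type} (Θ : Set (Tile Γ)) {m n : ℕ} (p : Pic Γ m n) : Prop :=
  ∀ i ≤ m, ∀ j ≤ n, (fun r s => bord p (i + r.toNat) (j + s.toNat)) ∈ Θ

/-- The bounded-grid frontier: the bottom row from left to right, then the last column upwards. -/
def frontier {Γ : Type} {m n : ℕ} (hm : 0 < m) (hn : 0 < n) (p : Pic Γ m n) : List Γ :=
  (List.ofFn fun j : Fin n => p ⟨m - 1, by omega⟩ j) ++
    List.ofFn fun i : Fin (m - 1) => p ⟨m - 2 - i, by omega⟩ ⟨n - 1, by omega⟩

/-- The language `π(fr(L(Θ)))`. -/
def bgrid {Γ A : Type} (Θ : Set (Tile Γ)) (π : Γ → A) : Set (List A) :=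
  {w | ∃ (m n : ℕ) (hm : 0 < m) (hn : 0 < n) (p : Pic Γ m n), InLocal Θ p ∧
    w = (frontier hm hn p).map π}

/-- The tile seen from the corner `z` (`z.1`: row, `z.2`: column of the corner in the tile): `far` is
the opposite entry, `a` lies in the row of `far`, `b` in the column of `far`, `c` is the entry of the
corner. -/
def tileAt {Γ : Type} (z : Bool × Bool) (far a b c : Option Γ) : Tile Γ := fun r s =>
  if r = z.1 then (if s = z.2 then c else b) else (if s = z.2 then a else far)

/-- The tiles seen from the corner `z`. -/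
def orient {Γ : Type} (z : Bool × Bool) (Θ : Set (Tile Γ)) (far a b c : Option Γ) : Prop :=
  tileAt z far a b c ∈ Θ

end Pool.Agent.Lib.MP_4c536a_lc.BGD
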