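import Pool.Agent.Lib.MP_2eed13_lc.LCA.H62.Adapt
import Pool.Agent.Lib.MP_4c536a_lc.BGD.Base

/-!
# MP_4c536a_lc, board BGD: frontier languages of deterministic tilings

Definitions and statements of the rows.  Paper: `Paper.md` in this folder.
-/

set_option autoImplicit false

namespace Pool.Agent.Lib.MP_4c536a_lc.BGD

open Finset
open Pool.Agent.Lib.MP_2eed13_lc.LCA
open Pool.Agent.Lib.MP_2eed13_lc.LCA.H62 (wid hgt prm)

/-! ## 1. Linear bounded automata -/

/-- Row LBA: arrays are simulated by linear bounded automata. -/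
def LbaStatement : Prop :=
  ∀ D : ℕ → Prop, Acceptable D →
    ∃ M : LBA Unit, ∀ w : List Unit, w ≠ [] → (D w.length ↔ M.Accepts w)

/-! ## 2. Pictures -/

/-- At most `k` symbols are possible at the corner and next to a given symbol on the two sides at
the corner; inside a symbol is determined by its three neighbours towards the corner. -/
def Branch {Γ : Type} (k : ℕ) (D : Option Γ → Option Γ → Option Γ → Option Γ → Prop) : Prop :=
  {x : Γ | D (some x) none none none}.ncard ≤ k ∧
  (∀ y, {x : Γ | D (some x) (some y) none none}.ncard ≤ k ∧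
    {x : Γ | D (some x) none (some y) none}.ncard ≤ k) ∧
  ∀ a b c x x' : Γ, D (some x) (some a) (some b) (some c) →
    D (some x') (some a) (some b) (some c) → x = x'

/-- A bordered picture in coordinates counted from the corner (entries `1, …, m` times
`1, …, n`). -/
def HasPic {Γ : Type} (D : Option Γ → Option Γ → Option Γ → Option Γ → Prop) (m n : ℕ) : Prop :=
  ∃ P : ℕ → ℕ → Option Γ, (∀ i j, (P i j).isSome ↔ (1 ≤ i ∧ i ≤ m) ∧ 1 ≤ j ∧ j ≤ n) ∧
    ∀ i ≤ m, ∀ j ≤ n, D (P (i + 1) (j + 1)) (P (i + 1) j) (P i (j + 1)) (P i j)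

/-- Row RED. -/
def RedStatement : Prop :=
  ∀ (Γ : Type) (z : Bool × Bool) (Θ : Set (Tile Γ)) (m n : ℕ), 1 ≤ m → 1 ≤ n →
    ((∃ p : Pic Γ m n, InLocal Θ p) ↔ HasPic (orient z Θ) m n)

/-- Row UNA: unary frontier languages. -/
def UnaStatement : Prop :=
  ∀ (Γ : Type) (Θ : Set (Tile Γ)) (π : Γ → Unit) (w : List Unit),
    w ∈ bgrid Θ π ↔ ∃ m n, 1 ≤ m ∧ 1 ≤ n ∧ m + n - 1 = w.length ∧ ∃ p : Pic Γ m n, InLocal Θ p

/-! ## 3. Arrays started on words -/

/-- The initial configuration on the word `w 0, …, w (n - 1)`. -/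
def wInit {Q : Type} (w : ℕ → Q) (n i : ℕ) : Option Q :=
  if 1 ≤ i ∧ i ≤ n then some (w (i - 1)) else none

/-- At time `t` the leftmost cell is in an accepting state. -/
def wAcc {Q : Type} (δ : Option Q → Q → Option Q → Q) (F : Set Q) (w : ℕ → Q) (n t : ℕ) : Prop :=
  ∃ q ∈ F, (aStep δ)^[t] (wInit w n) 1 = some q

/-- The word `u` over `{0, …, k-1}` with a mark at the place `c`. -/
def mark (k : ℕ) (u : ℕ → ℕ) (c z : ℕ) : ℕ := u z + if z = c then k else 0

/-- Row CAP (from CONF, FLG, KA, KB): the pictures are the space-time diagrams of an array. -/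
def CapStatement : Prop :=
  ∀ (k : ℕ) (Γ : Type) [Finite Γ] (D : Option Γ → Option Γ → Option Γ → Option Γ → Prop),
    Branch k D → ∃ (Q : Type) (_ : Finite Q) (ι : ℕ → Q) (δ : Option Q → Q → Option Q → Q)
      (F : Set Q), (∀ d, ι d ∉ F) ∧ ∀ m n, 1 ≤ m → 1 ≤ n →
        (HasPic D m n → ∃ u : ℕ → ℕ, (∀ z, u z < k) ∧ ∃ t, t ≤ 2 * (m + n) ∧
          wAcc δ F (fun z => ι (mark k u (n - 1) z)) (m + n - 1) t) ∧
        ((∃ u : ℕ → ℕ, (∀ z, u z < k) ∧ ∃ t,
          wAcc δ F (fun z => ι (mark k u (n - 1) z)) (m + n - 1) t) → HasPic D m n)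

/-! ## 4. The array of a tile set -/

/-- The possible contents of a place of the picture. -/
inductive Val (Γ : Type)
  | real (x : Γ) : Val Γ
  | hash : Val Γ
  | bad : Val Γ
  | done : Val Γ

/-- Enumeration of a set with at most `k` elements. -/
theorem exists_pick {Γ : Type} [Finite Γ] (k : ℕ) (p : Γ → Prop) :
    ∃ g : ℕ → Option Γ, (∀ d x, g d = some x → p x) ∧
      ({x | p x}.ncard ≤ k → ∀ x, p x → ∃ d < k, g d = some x) := by
  classical
  have hf : {x | p x}.Finite := Set.toFinite _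
  set l := hf.toFinset.toList with hl
  have hlen : l.length = {x | p x}.ncard := by
    rw [hl, Finset.length_toList, Set.ncard_eq_toFinset_card _ hf]
  refine ⟨fun d => l[d]?, fun d x h => ?_, fun hk x hx => ?_⟩
  · have h1 := List.mem_of_getElem? h
    rw [hl, Finset.mem_toList, Set.Finite.mem_toFinset] at h1
    exact h1
  · have h1 : x ∈ l := by
      rw [hl, Finset.mem_toList, Set.Finite.mem_toFinset]
      exact hx
    obtain ⟨d, hd, h2⟩ := List.getElem_of_mem h1
    refine ⟨d, by omega, ?_⟩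
    show l[d]? = some x
    rw [List.getElem?_eq_getElem hd, h2]

/-- The choice number `d` among the `x` with `p x`. -/
noncomputable def pick {Γ : Type} [Finite Γ] (k : ℕ) (p : Γ → Prop) : ℕ → Option Γ :=
  Classical.choose (exists_pick k p)

theorem pick_spec {Γ : Type} [Finite Γ] {k : ℕ} {p : Γ → Prop} {d : ℕ} {x : Γ}
    (h : pick k p d = some x) : p x := (Classical.choose_spec (exists_pick k p)).1 d x h

theorem exists_pick_eq {Γ : Type} [Finite Γ] {k : ℕ} {p : Γ → Prop} (hk : {x | p x}.ncard ≤ k)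
    {x : Γ} (hx : p x) : ∃ d < k, pick k p d = some x :=
  (Classical.choose_spec (exists_pick k p)).2 hk x hx

section array

variable {Γ : Type} [Finite Γ] (k : ℕ)
  (D : Option Γ → Option Γ → Option Γ → Option Γ → Prop)

/-- The content of a place of the first row or column: `d` is the letter, `a`, `b` the neighbours;
`eL`, `eR`: the cell is the first or the last cell. -/
noncomputable def ini (eL eR : Prop) (d : ℕ) (a b : Option Γ) : Val Γ := by
  classical
  exact match pick k (fun x => D (some x) a b none) d with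
    | none => .bad
    | some x => if (eR → D none none (some x) none) ∧ (eL → D none (some x) none none) then
        .real x else .bad

/-- A place of the first column (right of the corner cell); `v` is the content before it. -/
noncomputable def iniR (eR : Prop) (v : Val Γ) (d : ℕ) : Val Γ :=
  match v with
  | .real y => ini k D False eR d none (some y)
  | _ => .bad

/-- A place of the first row (left of the corner cell); `v` is the content before it. -/
noncomputable def iniL (eL : Prop) (v : Val Γ) (d : ℕ) : Val Γ :=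
  match v with
  | .real y => ini k D eL False d (some y) none
  | _ => .bad

/-- The content of the other places. `l` = previous row, `r` = previous column, `o` = both. -/
noncomputable def upd (l o r : Val Γ) : Val Γ := by
  classical
  exact match o with
    | .real c =>
      match l, r with
      | .real b, .real a =>
        if h : ∃ x, D (some x) (some a) (some b) (some c) then .real (Classical.choose h) else .bad
      | .hash, .real a => if D none (some a) none (some c) then .hash else .bad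
      | .real b, .hash => if D none none (some b) (some c) then .hash else .bad
      | .hash, .hash => if D none none none (some c) then .done else .bad
      | _, _ => .bad
    | _ => .bad

/-- The contents `V i j`, `i, j ≥ 0`; the corner cell has the number `n`, there are `m + n - 1`
cells, `u` is the word of choices. The recursion is on the row `i`. -/
noncomputable def rowV (m n : ℕ) (u : ℕ → ℕ) : ℕ → ℕ → Val Γ
  | 0 => fun j => Nat.rec (ini k D (n = 1) (m = 1) (u (n - 1)) none none)
      (fun j v => iniL k D (j + 2 = n) v (u (n - 1 - (j + 1)))) j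
  | i + 1 => fun j => Nat.rec (iniR k D (i + 2 = m) (rowV m n u i 0) (u (n - 1 + (i + 1))))
      (fun j v => upd D (if i + n ≤ j + 1 then .hash else rowV m n u i (j + 1)) (rowV m n u i j)
        (if j + m ≤ i + 1 then .hash else v)) j

theorem rowV_zero_zero (m n : ℕ) (u : ℕ → ℕ) :
    rowV k D m n u 0 0 = ini k D (n = 1) (m = 1) (u (n - 1)) none none := rfl

theorem rowV_zero_succ (m n : ℕ) (u : ℕ → ℕ) (j : ℕ) : rowV k D m n u 0 (j + 1) =
    iniL k D (j + 2 = n) (rowV k D m n u 0 j) (u (n - 1 - (j + 1))) := rfl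

theorem rowV_succ_zero (m n : ℕ) (u : ℕ → ℕ) (i : ℕ) : rowV k D m n u (i + 1) 0 =
    iniR k D (i + 2 = m) (rowV k D m n u i 0) (u (n - 1 + (i + 1))) := rfl

theorem rowV_succ_succ (m n : ℕ) (u : ℕ → ℕ) (i j : ℕ) : rowV k D m n u (i + 1) (j + 1) =
    upd D (if i + n ≤ j + 1 then .hash else rowV k D m n u i (j + 1)) (rowV k D m n u i j)
      (if j + m ≤ i + 1 then .hash else rowV k D m n u (i + 1) j) := rfl

/-- Row KA: if `done` appears at a place `(i, j)` of a cell of the array, there is a picture. -/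
def KaStatement : Prop :=
  ∀ (k : ℕ) (Γ : Type) [Finite Γ] (D : Option Γ → Option Γ → Option Γ → Option Γ → Prop)
    (m n : ℕ) (u : ℕ → ℕ) (i j : ℕ), 1 ≤ m → 1 ≤ n → i < j + m → j < i + n →
    rowV k D m n u i j = .done → HasPic D m n

/-- Row KB: a picture gives choices for which `done` appears at `(m, n)`. -/
def KbStatement : Prop :=
  ∀ (k : ℕ) (Γ : Type) [Finite Γ] (D : Option Γ → Option Γ → Option Γ → Option Γ → Prop)
    (m n : ℕ), 1 ≤ m → 1 ≤ n → Branch k D → HasPic D m n →
    ∃ u : ℕ → ℕ, (∀ z, u z < k) ∧ rowV k D m n u m n = .done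

/-- The main part of the states: letters, or contents with a bit that tells whether the content is
new. -/
inductive Main (Γ : Type) (k : ℕ)
  | letter (d : Fin (2 * k)) : Main Γ k
  | act (v : Val Γ) (new : Bool) : Main Γ k

/-- The states; the second component is the accepting flag. -/
abbrev St (Γ : Type) (k : ℕ) : Type := Main Γ k × Bool

/-- The content of a neighbour. -/
def rd : Option (St Γ k) → Val Γ
  | some (.act v _, _) => v
  | _ => .hash

/-- The new main part. -/
noncomputable def mainStep (l : Option (St Γ k)) (o : Main Γ k) (r : Option (St Γ k)) :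
    Main Γ k := by
  classical
  exact match o with
    | .act v true => .act v false
    | .act v false => .act (upd D (rd k l) v (rd k r)) true
    | .letter d =>
      if k ≤ d.val then
        .act (ini k D (l = none) (r = none) (d.val - k) none none) true
      else match l, r with
        | some (.act v true, _), _ => .act (iniR k D (r = none) v d.val) true
        | _, some (.act v true, _) => .act (iniL k D (l = none) v d.val) true
        | _, _ => .letter d

/-- The flag of a neighbour. -/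
def flg : Option (St Γ k) → Bool
  | some (_, b) => b
  | none => false

/-- The content is `done`. -/
def isDone : Main Γ k → Bool
  | .act .done _ => true
  | _ => false

/-- The array. -/
noncomputable def dl (l : Option (St Γ k)) (o : St Γ k) (r : Option (St Γ k)) : St Γ k :=
  (mainStep k D l o.1 r, flg k l || o.2 || flg k r || isDone k (mainStep k D l o.1 r))

/-- The letters. -/
def lt (d : ℕ) : St Γ k :=
  if h : d < 2 * k then (.letter ⟨d, h⟩, false) else (.act .bad true, false)

end array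

/-- Row FIN: the states form a finite type. -/
def FntStatement : Prop := ∀ (Γ : Type) [Finite Γ] (k : ℕ), Finite (St Γ k)

/-- Row CONF: the configurations. -/
def ConfStatement : Prop :=
  ∀ (k : ℕ) (Γ : Type) [Finite Γ] (D : Option Γ → Option Γ → Option Γ → Option Γ → Prop)
    (m n : ℕ) (u : ℕ → ℕ), 1 ≤ m → 1 ≤ n → (∀ z, u z < k) → ∀ s z, 1 ≤ z → z ≤ m + n - 1 →
    ∃ b : Bool, (aStep (dl k D))^[s + 1] (wInit (fun z => lt k (mark k u (n - 1) z)) (m + n - 1)) z =
      some (if n ≤ s + z ∧ z ≤ s + n then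
          .act (rowV k D m n u ((s + z - n) / 2) ((s + n - z) / 2)) (decide ((s + z - n) % 2 = 0))
        else (lt (Γ := Γ) k (mark k u (n - 1) (z - 1))).1, b)

/-- Row FLG: the flags. -/
def FlgStatement : Prop :=
  ∀ (k : ℕ) (Γ : Type) [Finite Γ] (D : Option Γ → Option Γ → Option Γ → Option Γ → Prop)
    (N : ℕ) (w : ℕ → St Γ k), (∀ z, (w z).2 = false) →
    (∀ t z x, 1 ≤ z → z ≤ N → (aStep (dl k D))^[t + 1] (wInit w N) z = some x →
      isDone k x.1 = true →
      ∃ y, (aStep (dl k D))^[t + z] (wInit w N) 1 = some y ∧ y.2 = true) ∧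
    ∀ t z x, (aStep (dl k D))^[t] (wInit w N) z = some x → x.2 = true →
      ∃ t' z' x', 1 ≤ z' ∧ z' ≤ N ∧ (aStep (dl k D))^[t' + 1] (wInit w N) z' = some x' ∧
        isDone k x'.1 = true

/-! ## 5. Coding by numbers -/

/-- Row WCODE (port of H27/Code.lean): every array can be coded, with a sticky acceptance flag in
bit `0` and with the code `2 (d + 1)` for the letter `d < 2 k`. -/
def WCodeStatement : Prop := ∀ (k : ℕ) (Q : Type) (_ : Finite Q) (ι : ℕ → Q)
  (δ : Option Q → Q → Option Q → Q) (F : Set Q), (∀ d, ι d ∉ F) →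
  ∃ β T : ℕ, 1 ≤ β ∧ 4 * k < 2 ^ β ∧ ∀ (n : ℕ) (v : ℕ → ℕ), 1 ≤ n → (∀ z, v z < 2 * k) →
    ∃ cfg : ℕ → ℤ → ℕ, (∀ t z, cfg t z < 2 ^ β) ∧
    (∀ t z, cfg (t + 1) z = rule (2 ^ β) T (cfg t (z - 1)) (cfg t z) (cfg t (z + 1))) ∧
    (∀ z : ℤ, cfg 0 z = if 1 ≤ z ∧ z ≤ n then 2 * (v (z - 1).toNat + 1) else 0) ∧
    ∀ t, (cfg t 1 % 2 = 1 ↔ ∃ t', t' ≤ t ∧ wAcc δ F (fun z => ι (v z)) n t')

/-- The initial content of block number `i` for the word with digits `dig k y`, marked at `c`. -/
def contW (C q k B J n y c i : ℕ) : ℕ :=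
  ∑ t ∈ range B, (if J * B + 1 ≤ i * B + t ∧ i * B + t ≤ n + J * B then
    2 * (mark k (dig k y) c (i * B + t - (J * B + 1)) + 1) else 0) * powc q t C

/-- Row WBLOCK (port of H39/Block.lean). -/
def WBlockStatement : Prop := ∀ (k : ℕ) (Q : Type) (_ : Finite Q) (ι : ℕ → Q)
  (δ : Option Q → Q → Option Q → Q) (F : Set Q), 1 ≤ k → (∀ d, ι d ∉ F) →
  ∃ β T : ℕ, 1 ≤ β ∧ 4 * k < 2 ^ β ∧ ∀ n B J C y c : ℕ, 1 ≤ n → 2 ≤ B →
    2 ^ (3 * (B * β)) ≤ C →
    (dig 2 (tval (B * β) (blockMap C (2 ^ β) T B) (contW C (2 ^ β) k B J n y c) J J) β = 1 ↔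
      ∃ t, t ≤ J * B ∧ wAcc δ F (fun z => ι (mark k (dig k y) c z)) n t)

/-- The operations for an arbitrary leaf function `L`. -/
def opW (C q T B p b : ℕ) (L : ℕ → ℕ) (tag r s i a R : ℕ) : ℕ :=
  if tag = 0 then addN C p b r s (fun k => dig 2 (L i) k) R
  else if tag = 1 then R
  else if tag = 2 then scaleN C p b r a R
  else if tag = 3 then addN C p b r (1 - s) (fun k => extN C q T B p b r R k) R
  else scaleN C p b r (powMod p a (p - 2)) R

/-- The operation at time `t`. -/
def actW (C q T B J p b : ℕ) (L : ℕ → ℕ) (t R : ℕ) : ℕ :=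
  opW C q T B p b L (desc (9 * (p - 1)) J t).1 (desc (9 * (p - 1)) J t).2.1
    (desc (9 * (p - 1)) J t).2.2.1 (desc (9 * (p - 1)) J t).2.2.2.1
    (desc (9 * (p - 1)) J t).2.2.2.2 R

/-- The whole evaluation. -/
def mainW (C q T B J p b : ℕ) (L : ℕ → ℕ) : ℕ :=
  runTo (actW C q T B J p b L) (powc (9 * (p - 1)) J C) 0

/-- Row WEVAL (port of H81/Eval.lean, theorem `eval`, with `L` instead of `cont`). -/
def WEvalStatement : Prop := ∀ (C β T B J p : ℕ) (L : ℕ → ℕ) (_ : 1 ≤ β) (_ : 2 ≤ B)
  (_ : p.Prime) (_ : 3 * (B * β) + 1 < p) (_ : 2 ^ (3 * (B * β)) ≤ C)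
  (_ : p ^ (4 * (B * β)) ≤ C) (_ : (9 * (p - 1)) ^ J ≤ C) (_ : ∀ i, L i < 2 ^ (B * β)),
  dig p (mainW C (2 ^ β) T B J p (B * β) L) β =
    dig 2 (tval (B * β) (blockMap C (2 ^ β) T B) L J J) β

/-- Row WOP (port of `lsop`, H62/LsOp.lean). -/
def WOpStatement : Prop := ∀ (α : Type) [Denumerable α]
  (C q T B p b tag r s i a R : α → ℕ) (L : α → ℕ → ℕ), LSf C → LSf q → LSf T → LSf B →
  LSf p → LSf b → (LSf fun x : α × ℕ => L x.1 x.2) → LSf tag → LSf r → LSf s → LSf i → LSf a →
  LSf R → (∀ x, 1 ≤ p x) →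
  LSf fun x => opW (C x) (q x) (T x) (B x) (p x) (b x) (L x) (tag x) (r x) (s x) (i x) (a x) (R x)

/-- Row WCONT (port of the second part of `lsblk`, H62/LsBlk.lean). -/
def WContStatement : Prop := ∀ (α : Type) [Denumerable α] (k : ℕ)
  (C q B J n y c i : α → ℕ), LSf C → LSf q → LSf B → LSf J → LSf n → LSf y → LSf c → LSf i →
  LSf fun a => contW (C a) (q a) k (B a) (J a) (n a) (y a) (c a) (i a)

/-- The outcome of the evaluation for the array with code `e = (β - 1, T)` on the word `y` marked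
at `c`. -/
def outW (k C n e y c : ℕ) : ℕ :=
  dig (prm n (e.unpair.1 + 1))
    (mainW C (powc 2 (e.unpair.1 + 1) C) e.unpair.2 (wid n (e.unpair.1 + 1)) (hgt n)
      (prm n (e.unpair.1 + 1)) (wid n (e.unpair.1 + 1) * (e.unpair.1 + 1))
      (contW C (powc 2 (e.unpair.1 + 1) C) k (wid n (e.unpair.1 + 1)) (hgt n) n y c))
    (e.unpair.1 + 1)

/-- The diagonal function. -/
def diagW (k x : ℕ) : ℕ :=
  if (∑ c ∈ range (Nat.log 2 x), ∑ y ∈ range (x ^ k),
    if outW k x (Nat.log 2 x) (Nat.log 2 x).unpair.1 y c = 1 then 1 else 0) = 0 then 1 else 0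

/-- Row WLS (from LSNUM, WOP, WCONT, LSDESC; port of `ls_diagA`, H62/Adapt.lean). -/
def WLsStatement : Prop := ∀ k : ℕ, LS (diagW k)

/-- Row WDIAG (from WBLOCK, WEVAL, PRIME; port of `diagA_spec`, H62/Adapt.lean). -/
def WDiagStatement : Prop := ∀ (k : ℕ) (Q : Type) (_ : Finite Q) (ι : ℕ → Q)
  (δ : Option Q → Q → Option Q → Q) (F : Set Q), 1 ≤ k → (∀ d, ι d ∉ F) →
  ∃ β, 1 ≤ β ∧ ∀ N, ∃ n, N ≤ n ∧ ¬ (diagW k (2 ^ n) ≠ 0 ↔
    ∃ c < n, ∃ u : ℕ → ℕ, (∀ z, u z < k) ∧
      ∃ t, t ≤ hgt n * wid n β ∧ wAcc δ F (fun z => ι (mark k u c z)) n t)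

/-- Row TIM (from `bound_all`, H62/Assemble.lean, or directly). -/
def TimStatement : Prop := ∀ β : ℕ, 1 ≤ β → ∃ N, ∀ n, N ≤ n → 2 * n + 2 ≤ hgt n * wid n β

/-! ## 6. The theorem -/

/-- The theorem: for every `k` one unary context-sensitive language is not the frontier language of
any tile set with branching at most `k` towards some corner. -/
def MainStatement : Prop :=
  ∀ k : ℕ, ∃ L : Set (List Unit), IsCS L ∧ [] ∉ L ∧
    ∀ (Γ : Type) [Finite Γ] (Θ : Set (Tile Γ)) (π : Γ → Unit) (z : Bool × Bool),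
      Branch k (orient z Θ) → bgrid Θ π ≠ L

end Pool.Agent.Lib.MP_4c536a_lc.BGD
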