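import Pool.Agent.Lib.MP_4c536a_lc.BGD.Defs

/-!
# Row LBA: arrays are simulated by linear bounded automata
-/

set_option autoImplicit false

namespace Pool.Agent.Lib.MP_4c536a_lc.BGD

open Pool.Agent.Lib.MP_2eed13_lc.LCA

section lba

variable {Q : Type}

/-- The automaton of the array. States: the old state of the neighbour on the side one comes from
and the direction (`false`: to the right, `true`: to the left), or the accepting state. -/
def lbaOf (δ : Option Q → Q → Option Q → Q) (s : Q) (F : Set Q) (hQ : Finite Q) : LBA Unit where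
  Q := (Option Q × Bool) ⊕ Unit
  T := Q ⊕ (Q × Option Q)
  finQ := inferInstance
  finT := inferInstance
  inp := fun _ => Sum.inl s
  start := Sum.inl (none, false)
  acc := {Sum.inr ()}
  onCell := fun q a q' a' d =>
    (∃ c x, q = Sum.inl (c, false) ∧ a = Sum.inl x ∧ q' = Sum.inl (some x, false) ∧
      a' = Sum.inr (x, c) ∧ d = Dir.R) ∨
    (∃ c x l, q = Sum.inl (c, true) ∧ a = Sum.inr (x, l) ∧ q' = Sum.inl (some x, true) ∧
      a' = Sum.inl (δ l x c) ∧ d = Dir.L)
  onEnd := fun q e q' =>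
    (∃ c, q = Sum.inl (c, false) ∧ e = true ∧ q' = Sum.inl (none, true)) ∨
    (∃ c, q = Sum.inl (c, true) ∧ e = false ∧ (q' = Sum.inl (none, false) ∨
      ∃ x ∈ F, c = some x ∧ q' = Sum.inr ()))

variable (δ : Option Q → Q → Option Q → Q) (s : Q) (n : ℕ)

/-- The configuration of the array at time `t`. -/
def cf (t i : ℕ) : Option Q := (aStep δ)^[t] (aInit s n) i

/-- The state of a cell, `s` outside. -/
def st (t i : ℕ) : Q := (cf δ s n t i).getD s

theorem cf_succ (t i : ℕ) : cf δ s n (t + 1) i =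
    (cf δ s n t i).map fun q => δ (cf δ s n t (i - 1)) q (cf δ s n t (i + 1)) := by
  unfold cf
  rw [Function.iterate_succ_apply']
  rfl

theorem cf_in (t : ℕ) {i : ℕ} (h1 : 1 ≤ i) (h2 : i ≤ n) : cf δ s n t i = some (st δ s n t i) := by
  have h : ∀ t, ∃ q, cf δ s n t i = some q := by
    intro t
    induction t with
    | zero => exact ⟨s, if_pos ⟨h1, h2⟩⟩
    | succ t ih =>
      obtain ⟨q, hq⟩ := ih
      rw [cf_succ, hq]
      exact ⟨_, rfl⟩
  obtain ⟨q, hq⟩ := h t
  unfold st
  rw [hq]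
  rfl

theorem cf_out (t : ℕ) {i : ℕ} (h : ¬ (1 ≤ i ∧ i ≤ n)) : cf δ s n t i = none := by
  induction t with
  | zero => exact if_neg h
  | succ t ih => rw [cf_succ, ih]; rfl

theorem st_out (t : ℕ) {i : ℕ} (h : ¬ (1 ≤ i ∧ i ≤ n)) : st δ s n t i = s := by
  unfold st
  rw [cf_out δ s n t h]
  rfl

theorem st_zero (i : ℕ) : st δ s n 0 i = s := by
  unfold st cf
  change (if 1 ≤ i ∧ i ≤ n then some s else none).getD s = s
  split_ifs <;> rfl

theorem st_succ (t : ℕ) {i : ℕ} (h1 : 1 ≤ i) (h2 : i ≤ n) : st δ s n (t + 1) i =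
    δ (cf δ s n t (i - 1)) (st δ s n t i) (cf δ s n t (i + 1)) := by
  have h := cf_in δ s n (t + 1) h1 h2
  rw [cf_succ, cf_in δ s n t h1 h2] at h
  simpa using h.symm

/-- The tape on the way to the right, the head at place `p`. -/
def TF (t p i : ℕ) : Q ⊕ (Q × Option Q) :=
  if 1 ≤ i ∧ i < p then Sum.inr (st δ s n t i, cf δ s n t (i - 1)) else Sum.inl (st δ s n t i)

/-- The tape on the way to the left, the head at place `p`. -/
def TB (t p i : ℕ) : Q ⊕ (Q × Option Q) :=
  if 1 ≤ i ∧ i ≤ p then Sum.inr (st δ s n t i, cf δ s n t (i - 1))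
  else Sum.inl (st δ s n (t + 1) i)

theorem TF_last (t : ℕ) : TF δ s n t (n + 1) = TB δ s n t n := by
  funext i
  unfold TF TB
  by_cases h : 1 ≤ i ∧ i ≤ n
  · rw [if_pos ⟨h.1, by omega⟩, if_pos h]
  · rw [if_neg (by omega), if_neg h, st_out δ s n t h, st_out δ s n (t + 1) h]

theorem TB_zero (t : ℕ) : TB δ s n t 0 = TF δ s n (t + 1) 1 := by
  funext i
  unfold TF TB
  rw [if_neg (by omega), if_neg (by omega)]

theorem TF_step (t : ℕ) {p : ℕ} (h1 : 1 ≤ p) : Function.update (TF δ s n t p) p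
    (Sum.inr (st δ s n t p, cf δ s n t (p - 1))) = TF δ s n t (p + 1) := by
  funext i
  by_cases h : i = p
  · subst h
    rw [Function.update_self]
    unfold TF
    rw [if_pos ⟨h1, by omega⟩]
  · rw [Function.update_of_ne h]
    unfold TF
    by_cases h' : 1 ≤ i ∧ i < p
    · rw [if_pos h', if_pos ⟨h'.1, by omega⟩]
    · rw [if_neg h', if_neg (by omega)]

theorem TB_step (t : ℕ) {p : ℕ} (h1 : 1 ≤ p) : Function.update (TB δ s n t p) p
    (Sum.inl (st δ s n (t + 1) p)) = TB δ s n t (p - 1) := by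
  funext i
  by_cases h : i = p
  · subst h
    rw [Function.update_self]
    unfold TB
    rw [if_neg (by omega)]
  · rw [Function.update_of_ne h]
    unfold TB
    by_cases h' : 1 ≤ i ∧ i ≤ p
    · rw [if_pos h', if_pos ⟨h'.1, by omega⟩]
    · rw [if_neg h', if_neg (by omega)]

/-- The invariant of the reachable configurations. -/
def Inv (F : Set Q) (x : ((Option Q × Bool) ⊕ Unit) × ℕ × (ℕ → Q ⊕ (Q × Option Q))) : Prop :=
  (∃ t, x.1 = Sum.inl (cf δ s n t (x.2.1 - 1), false) ∧ 1 ≤ x.2.1 ∧ x.2.1 ≤ n + 1 ∧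
    ∀ i, 1 ≤ i → i ≤ n → x.2.2 i = TF δ s n t x.2.1 i) ∨
  (∃ t, x.1 = Sum.inl (cf δ s n t (x.2.1 + 1), true) ∧ x.2.1 ≤ n ∧
    ∀ i, 1 ≤ i → i ≤ n → x.2.2 i = TB δ s n t x.2.1 i) ∨
  (x.1 = Sum.inr () ∧ ∃ t, aAcc δ s F n t)

variable {F : Set Q} (hQ : Finite Q)

theorem upd_congr {T : Type} {f g : ℕ → T} {p : ℕ} {a : T}
    (h : ∀ i, 1 ≤ i → i ≤ n → f i = g i) (i : ℕ) (h1 : 1 ≤ i) (h2 : i ≤ n) :
    Function.update f p a i = Function.update g p a i := by
  by_cases hi : i = p
  · subst hi
    rw [Function.update_self, Function.update_self]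
  · rw [Function.update_of_ne hi, Function.update_of_ne hi, h i h1 h2]

theorem inv_step {x y : (lbaOf δ s F hQ).Cfg} (hx : Inv δ s n F x)
    (h : (lbaOf δ s F hQ).Step n x y) : Inv δ s n F y := by
  cases h with
  | cell q q' p tp a' d h1 h2 hc =>
    rcases hx with ⟨t, e1, e2, e3, e4⟩ | ⟨t, e1, e2, e4⟩ | ⟨e1, -⟩
    · change q = _ at e1
      change ∀ i, 1 ≤ i → i ≤ n → tp i = TF δ s n t p i at e4
      have hp : tp p = Sum.inl (st δ s n t p) := by
        rw [e4 p h1 h2]
        unfold TF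
        rw [if_neg (by omega)]
      rcases hc with ⟨c, x, k1, k2, k3, k4, k5⟩ | ⟨c, x, l, k1, k2, k3, k4, k5⟩
      · rw [e1] at k1
        simp only [Sum.inl.injEq, Prod.mk.injEq, and_true] at k1
        rw [hp] at k2
        simp only [Sum.inl.injEq] at k2
        subst k1 k2 k5
        refine Or.inl ⟨t, ?_, ?_, ?_, ?_⟩
        · rw [k3, ← cf_in δ s n t h1 h2]
          rfl
        · change 1 ≤ p + 1
          omega
        · change p + 1 ≤ n + 1
          omega
        · intro i hi1 hi2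
          change Function.update tp p a' i = TF δ s n t (p + 1) i
          rw [← TF_step δ s n t h1, k4]
          exact upd_congr n e4 i hi1 hi2
      · rw [e1] at k1
        simp at k1
    · change q = _ at e1
      change ∀ i, 1 ≤ i → i ≤ n → tp i = TB δ s n t p i at e4
      have hp : tp p = Sum.inr (st δ s n t p, cf δ s n t (p - 1)) := by
        rw [e4 p h1 h2]
        unfold TB
        rw [if_pos ⟨h1, le_rfl⟩]
      rcases hc with ⟨c, x, k1, k2, k3, k4, k5⟩ | ⟨c, x, l, k1, k2, k3, k4, k5⟩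
      · rw [e1] at k1
        simp at k1
      · rw [e1] at k1
        simp only [Sum.inl.injEq, Prod.mk.injEq, and_true] at k1
        rw [hp] at k2
        simp only [Sum.inr.injEq, Prod.mk.injEq] at k2
        obtain ⟨k2, k2'⟩ := k2
        subst k1 k2 k2' k5
        refine Or.inr (Or.inl ⟨t, ?_, ?_, ?_⟩)
        · rw [k3, ← cf_in δ s n t h1 h2]
          change _ = Sum.inl (cf δ s n t (p - 1 + 1), true)
          rw [Nat.sub_add_cancel h1]
        · change p - 1 ≤ n
          omega
        · intro i hi1 hi2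
          change Function.update tp p a' i = TB δ s n t (p - 1) i
          rw [← TB_step δ s n t h1, k4, st_succ δ s n t h1 h2]
          exact upd_congr n e4 i hi1 hi2
    · change q = _ at e1
      rcases hc with ⟨c, x, k1, k2, k3, k4, k5⟩ | ⟨c, x, l, k1, k2, k3, k4, k5⟩
      · rw [e1] at k1
        simp at k1
      · rw [e1] at k1
        simp at k1
  | left q q' tp he =>
    rcases hx with ⟨t, e1, e2, e3, e4⟩ | ⟨t, e1, e2, e4⟩ | ⟨e1, -⟩
    · change 1 ≤ 0 at e2
      omega
    · change q = Sum.inl (cf δ s n t (0 + 1), true) at e1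
      change ∀ i, 1 ≤ i → i ≤ n → tp i = TB δ s n t 0 i at e4
      rcases he with ⟨c, k1, k2, k3⟩ | ⟨c, k1, k2, k3⟩
      · exact absurd k2 (by simp)
      · rcases k3 with k3 | ⟨x, hx, k4, k3⟩
        · refine Or.inl ⟨t + 1, ?_, le_rfl, ?_, ?_⟩
          · rw [k3]
            change _ = Sum.inl (cf δ s n (t + 1) 0, false)
            rw [cf_out δ s n (t + 1) (by omega)]
          · change 1 ≤ n + 1
            omega
          · intro i hi1 hi2
            change tp i = TF δ s n (t + 1) 1 i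
            rw [← TB_zero]
            exact e4 i hi1 hi2
        · refine Or.inr (Or.inr ⟨k3, t, x, hx, ?_⟩)
          rw [e1, k4] at k1
          simp only [Sum.inl.injEq, Prod.mk.injEq, and_true] at k1
          exact k1
    · change q = _ at e1
      rcases he with ⟨c, k1, k2, k3⟩ | ⟨c, k1, k2, k3⟩
      · rw [e1] at k1
        simp at k1
      · rw [e1] at k1
        simp at k1
  | right q q' tp he =>
    rcases hx with ⟨t, e1, e2, e3, e4⟩ | ⟨t, e1, e2, e4⟩ | ⟨e1, -⟩
    · change q = _ at e1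
      change ∀ i, 1 ≤ i → i ≤ n → tp i = TF δ s n t (n + 1) i at e4
      rcases he with ⟨c, k1, k2, k3⟩ | ⟨c, k1, k2, k3⟩
      · refine Or.inr (Or.inl ⟨t, ?_, le_rfl, ?_⟩)
        · rw [k3]
          change _ = Sum.inl (cf δ s n t (n + 1), true)
          rw [cf_out δ s n t (by omega)]
        · intro i hi1 hi2
          change tp i = TB δ s n t n i
          rw [← TF_last]
          exact e4 i hi1 hi2
      · exact absurd k2 (by simp)
    · change n + 1 ≤ n at e2
      omega
    · change q = _ at e1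
      rcases he with ⟨c, k1, k2, k3⟩ | ⟨c, k1, k2, k3⟩
      · rw [e1] at k1
        simp at k1
      · rw [e1] at k1
        simp at k1

theorem cellR {M : LBA Unit} {n p : ℕ} {q q' : M.Q} {tp tp' : ℕ → M.T} {a' : M.T} (h1 : 1 ≤ p)
    (h2 : p ≤ n) (hc : M.onCell q (tp p) q' a' Dir.R) (h : Function.update tp p a' = tp') :
    M.Step n (q, p, tp) (q', p + 1, tp') := by
  subst h
  exact LBA.Step.cell q q' p tp a' Dir.R h1 h2 hc

theorem cellL {M : LBA Unit} {n p : ℕ} {q q' : M.Q} {tp tp' : ℕ → M.T} {a' : M.T} (h1 : 1 ≤ p)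
    (h2 : p ≤ n) (hc : M.onCell q (tp p) q' a' Dir.L) (h : Function.update tp p a' = tp') :
    M.Step n (q, p, tp) (q', p - 1, tp') := by
  subst h
  exact LBA.Step.cell q q' p tp a' Dir.L h1 h2 hc

theorem fwd (t p : ℕ) (hp : p ≤ n) : Relation.ReflTransGen ((lbaOf δ s F hQ).Step n)
    (Sum.inl (none, false), 1, TF δ s n t 1)
    (Sum.inl (cf δ s n t p, false), p + 1, TF δ s n t (p + 1)) := by
  induction p with
  | zero =>
    rw [cf_out δ s n t (by omega)]
  | succ p ih =>
    refine (ih (by omega)).tail ?_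
    refine cellR (M := lbaOf δ s F hQ) (by omega) hp ?_ (TF_step δ s n t (by omega))
    refine Or.inl ⟨cf δ s n t p, st δ s n t (p + 1), rfl, ?_, ?_, rfl, rfl⟩
    · unfold TF
      rw [if_neg (by omega)]
    · rw [cf_in δ s n t (by omega) hp]

theorem bwd (t j : ℕ) (hj : j ≤ n) : Relation.ReflTransGen ((lbaOf δ s F hQ).Step n)
    (Sum.inl (none, true), n, TB δ s n t n)
    (Sum.inl (cf δ s n t (n - j + 1), true), n - j, TB δ s n t (n - j)) := by
  induction j with
  | zero =>
    rw [Nat.sub_zero, cf_out δ s n t (by omega)]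
  | succ j ih =>
    refine (ih (by omega)).tail ?_
    have e : n - (j + 1) + 1 = n - j := by omega
    have e' : n - (j + 1) = n - j - 1 := by omega
    rw [e, e']
    refine cellL (M := lbaOf δ s F hQ) (by omega) (by omega) ?_ (TB_step δ s n t (by omega))
    refine Or.inr ⟨cf δ s n t (n - j + 1), st δ s n t (n - j), cf δ s n t (n - j - 1), rfl, ?_, ?_,
      ?_, rfl⟩
    · unfold TB
      rw [if_pos ⟨by omega, le_rfl⟩]
    · rw [cf_in δ s n t (by omega) (by omega)]
    · rw [st_succ δ s n t (by omega) (by omega)]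

theorem reach_end (t : ℕ) : Relation.ReflTransGen ((lbaOf δ s F hQ).Step n)
    (Sum.inl (none, false), 1, TF δ s n t 1)
    (Sum.inl (cf δ s n t 1, true), 0, TB δ s n t 0) := by
  have h1 := fwd δ s n (F := F) hQ t n le_rfl
  have h2 := bwd δ s n (F := F) hQ t n le_rfl
  rw [Nat.sub_self] at h2
  refine (h1.tail ?_).trans h2
  rw [← TF_last]
  exact LBA.Step.right _ _ _ (Or.inl ⟨_, rfl, rfl, rfl⟩)

theorem reach_time (t : ℕ) : Relation.ReflTransGen ((lbaOf δ s F hQ).Step n)
    (Sum.inl (none, false), 1, TF δ s n 0 1) (Sum.inl (none, false), 1, TF δ s n t 1) := by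
  induction t with
  | zero => exact Relation.ReflTransGen.refl
  | succ t ih =>
    refine (ih.trans (reach_end δ s n hQ t)).tail ?_
    rw [← TB_zero]
    exact LBA.Step.left _ _ _ (Or.inr ⟨_, rfl, rfl, Or.inl rfl⟩)

end lba

/-- Row LBA. -/
theorem lba_proof : LbaStatement := by
  rintro D ⟨Q, hQ, s, δ, F, hD⟩
  refine ⟨lbaOf δ s F hQ, fun w hw => ?_⟩
  have hn : 1 ≤ w.length := List.length_pos_iff.2 hw
  rw [hD _ hn]
  constructor
  · rintro ⟨t, q, hq, ht⟩
    refine ⟨Sum.inr (), 1, TB δ s w.length t 0, TF δ s w.length 0 1, rfl, ?_, ?_⟩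
    · intro i hi
      change TF δ s w.length 0 1 (i + 1) = Sum.inl s
      unfold TF
      rw [if_neg (by omega)]
      rw [st_zero]
    · refine ((reach_time δ s w.length hQ t).trans
        (reach_end δ s w.length hQ t)).tail ?_
      exact LBA.Step.left _ _ _ (Or.inr ⟨_, rfl, rfl, Or.inr ⟨q, hq, ht, rfl⟩⟩)
  · rintro ⟨q, p, tp, tp₀, hq, h0, hr⟩
    have hinv : Inv δ s w.length F (q, p, tp) := by
      refine Relation.ReflTransGen.head_induction_on
        (motive := fun x _ => Inv δ s w.length F x → Inv δ s w.length F (q, p, tp)) hr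
        (fun h => h) ?_ ?_
      · intro x y hxy _ ih hx
        exact ih (inv_step δ s w.length hQ hx hxy)
      · refine Or.inl ⟨0, ?_, le_rfl, ?_, ?_⟩
        · change _ = Sum.inl (cf δ s w.length 0 0, false)
          rw [cf_out δ s w.length 0 (by omega)]
          rfl
        · change 1 ≤ w.length + 1
          omega
        · intro i hi1 hi2
          change tp₀ i = TF δ s w.length 0 1 i
          have h := h0 (i - 1) (by omega)
          rw [Nat.sub_add_cancel hi1] at h
          rw [h]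
          unfold TF
          rw [if_neg (by omega)]
          rw [st_zero]
          rfl
    rcases hinv with ⟨t, e1, -⟩ | ⟨t, e1, -⟩ | ⟨-, h⟩
    · change q = _ at e1
      rw [e1] at hq
      exact absurd (show (Sum.inl _ : (Option Q × Bool) ⊕ Unit) = Sum.inr () from hq) (by simp)
    · change q = _ at e1
      rw [e1] at hq
      exact absurd (show (Sum.inl _ : (Option Q × Bool) ⊕ Unit) = Sum.inr () from hq) (by simp)
    · exact h

end Pool.Agent.Lib.MP_4c536a_lc.BGD
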