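import Pool.Agent.Lib.MP_4c536a_lc.BGD.Defs

/-!
# MP_4c536a_lc, board BGD: row RED (change of the corner)
-/

set_option autoImplicit false

namespace Pool.Agent.Lib.MP_4c536a_lc.BGD

/-- Reflection of a coordinate. -/
private def rf (z : Bool) (m i : ℕ) : ℕ := if z then m + 1 - i else i

private lemma bord_isSome {Γ : Type} {m n : ℕ} (p : Pic Γ m n) (i j : ℕ) :
    (bord p i j).isSome ↔ (1 ≤ i ∧ i ≤ m) ∧ 1 ≤ j ∧ j ≤ n := by
  unfold bord
  split_ifs with h
  · simp [h]
  · simp [h]

private lemma rf_mem (z : Bool) (m i : ℕ) : (1 ≤ rf z m i ∧ rf z m i ≤ m) ↔ 1 ≤ i ∧ i ≤ m := by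
  unfold rf
  cases z
  · simp
  · simp only [if_true]
    omega

private lemma tile_eq {Γ : Type} (z : Bool × Bool) (m n : ℕ) (P B : ℕ → ℕ → Option Γ)
    (hPB : ∀ i ≤ m + 1, ∀ j ≤ n + 1, P i j = B (rf z.1 m i) (rf z.2 n j)) (i j : ℕ)
    (hi : i ≤ m) (hj : j ≤ n) :
    tileAt z (P (i + 1) (j + 1)) (P (i + 1) j) (P i (j + 1)) (P i j) =
      fun r s => B ((if z.1 then m - i else i) + r.toNat) ((if z.2 then n - j else j) + s.toNat) := by
  rw [hPB (i + 1) (by omega) (j + 1) (by omega), hPB (i + 1) (by omega) j (by omega),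
    hPB i (by omega) (j + 1) (by omega), hPB i (by omega) j (by omega)]
  have h1 : m + 1 - (i + 1) = m - i := by omega
  have h2 : m + 1 - i = m - i + 1 := by omega
  have h3 : n + 1 - (j + 1) = n - j := by omega
  have h4 : n + 1 - j = n - j + 1 := by omega
  obtain ⟨z1, z2⟩ := z
  funext r s
  cases z1 <;> cases z2 <;> cases r <;> cases s <;>
    simp [tileAt, rf, h1, h2, h3, h4]

theorem red_proof : RedStatement := by
  intro Γ z Θ m n hm hn
  constructor
  · rintro ⟨p, hp⟩
    refine ⟨fun i j => bord p (rf z.1 m i) (rf z.2 n j), ?_, ?_⟩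
    · intro i j
      rw [bord_isSome, rf_mem, rf_mem]
    · intro i hi j hj
      have h := tile_eq z m n (fun i j => bord p (rf z.1 m i) (rf z.2 n j)) (bord p)
        (fun _ _ _ _ => rfl) i j hi hj
      unfold orient
      rw [h]
      apply hp
      · cases z.1 <;> simp <;> omega
      · cases z.2 <;> simp <;> omega
  · rintro ⟨P, hP1, hP2⟩
    have hsome : ∀ (i : Fin m) (j : Fin n),
        (P (rf z.1 m (i + 1)) (rf z.2 n (j + 1))).isSome := by
      intro i j
      rw [hP1, rf_mem, rf_mem]
      have := i.2
      have := j.2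
      omega
    let p : Pic Γ m n := fun i j => (P (rf z.1 m (i + 1)) (rf z.2 n (j + 1))).get (hsome i j)
    have hinv : ∀ (z : Bool) (m i : ℕ), i ≤ m + 1 → rf z m (rf z m i) = i := by
      intro z m i hi
      unfold rf
      cases z
      · simp
      · simp only [if_true]
        omega
    have hle : ∀ (z : Bool) (m i : ℕ), i ≤ m + 1 → rf z m i ≤ m + 1 := by
      intro z m i hi
      unfold rf
      cases z
      · simpa using hi
      · simp only [if_true]
        omega
    have hB : ∀ i ≤ m + 1, ∀ j ≤ n + 1, bord p i j = P (rf z.1 m i) (rf z.2 n j) := by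
      intro i hi j hj
      unfold bord
      split_ifs with h
      · have e1 : i - 1 + 1 = i := by omega
        have e2 : j - 1 + 1 = j := by omega
        simp only [p, Option.some_get, e1, e2]
      · symm
        rw [← Option.not_isSome_iff_eq_none, hP1, rf_mem, rf_mem]
        exact h
    refine ⟨p, fun i hi j hj => ?_⟩
    have h := tile_eq z m n P (bord p) (fun i hi j hj => by
      rw [hB _ (hle _ _ _ hi) _ (hle _ _ _ hj), hinv _ _ _ hi, hinv _ _ _ hj])
      (if z.1 then m - i else i) (if z.2 then n - j else j)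
      (by cases z.1 <;> simp <;> omega) (by cases z.2 <;> simp <;> omega)
    have h2 := hP2 (if z.1 then m - i else i) (by cases z.1 <;> simp <;> omega)
      (if z.2 then n - j else j) (by cases z.2 <;> simp <;> omega)
    unfold orient at h2
    rw [h] at h2
    have e1 : (if z.1 then m - (if z.1 then m - i else i) else (if z.1 then m - i else i)) = i := by
      cases z.1
      · simp
      · simp only [if_true]
        omega
    have e2 : (if z.2 then n - (if z.2 then n - j else j) else (if z.2 then n - j else j)) = j := by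
      cases z.2
      · simp
      · simp only [if_true]
        omega
    rw [e1, e2] at h2
    exact h2

end Pool.Agent.Lib.MP_4c536a_lc.BGD
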