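import Pool.Agent.Lib.MP_4c536a_lc.BGD.Defs

/-!
# UNA: unary frontier languages
-/

set_option autoImplicit false

namespace Pool.Agent.Lib.MP_4c536a_lc.BGD

theorem una_ext (l l' : List Unit) (h : l.length = l'.length) : l = l' :=
  List.ext_getElem h fun _ _ _ => Subsingleton.elim _ _

theorem una_length {Γ : Type} {m n : ℕ} (hm : 0 < m) (hn : 0 < n) (p : Pic Γ m n)
    (π : Γ → Unit) : ((frontier hm hn p).map π).length = m + n - 1 := by
  rw [List.length_map]
  unfold frontier
  rw [List.length_append, List.length_ofFn, List.length_ofFn]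
  omega

theorem una_proof : UnaStatement := by
  intro Γ Θ π w
  constructor
  · rintro ⟨m, n, hm, hn, p, hp, hw⟩
    refine ⟨m, n, hm, hn, ?_, p, hp⟩
    rw [hw, una_length]
  · rintro ⟨m, n, hm, hn, hl, p, hp⟩
    refine ⟨m, n, hm, hn, p, hp, una_ext _ _ ?_⟩
    rw [una_length, hl]

end Pool.Agent.Lib.MP_4c536a_lc.BGD
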